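import Pool.Agent.H380Lind.Lind

set_option autoImplicit false
universe u

namespace Pool.Agent.H380Lind

open Set Filter Topology

/-- The index set: a copy of Cantor space in `Type u`, to be well-ordered. -/
def LL : Type u := ULift.{u} C

noncomputable instance : LinearOrder LL.{u} :=
  IsWellOrder.linearOrder (WellOrderingRel (α := LL.{u}))

instance : WellFoundedLT LL.{u} := ⟨(IsWellOrder.toIsWellFounded (r := WellOrderingRel (α := LL.{u}))).wf⟩

/-- The inclusion of the index set into Cantor space. -/
def iot : LL.{u} → C := fun x => ULift.down x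

theorem iot_inj : Function.Injective iot.{u} := ULift.down_injective

theorem mk_LL : Cardinal.mk LL.{u} = Cardinal.continuum.{u} := by
  have h : Cardinal.mk (ULift.{u} C) = Cardinal.lift.{u} (Cardinal.mk C) := Cardinal.mk_uLift _
  have h2 : Cardinal.mk C = Cardinal.continuum.{0} := by simp [C]
  show Cardinal.mk (ULift.{u} C) = _
  rw [h, h2, Cardinal.lift_continuum]

theorem big : ¬ (Cardinal.mk (XX iot.{u}) ≤ Cardinal.continuum.{u}) := by
  intro h
  have h1 : Cardinal.mk (LL.{u} → Bool) ≤ Cardinal.mk (XX iot.{u}) :=
    Cardinal.mk_le_of_injective (f := fun a => ((a, ∅) : XX iot.{u}))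
      (fun a b hab => congrArg Prod.fst hab)
  have h2 : Cardinal.mk (LL.{u} → Bool) = 2 ^ Cardinal.continuum.{u} := by
    rw [← mk_LL]
    simp
  have h3 : Cardinal.continuum.{u} < 2 ^ Cardinal.continuum.{u} := Cardinal.cantor _
  exact absurd (h1.trans h) (by rw [h2]; exact not_le.2 h3)

end Pool.Agent.H380Lind
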