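import Pool.Agent.H380Lind.Space

set_option autoImplicit false

namespace Pool.Agent.H380Lind

open Set Filter Topology

/-- The trace of a finite set on the first `n` coordinates. -/
def cls (n : ℕ) (S : Finset C) : Set (Fin n → Bool) := (fun (s : C) (i : Fin n) => s i) '' (S : Set C)

theorem vn_of_cls {n : ℕ} {S S' : Finset C} (h : cls n S' = cls n S) : vn n S S' := by
  constructor
  · intro t ht
    have : (fun (i : Fin n) => t i) ∈ cls n S := h ▸ ⟨t, ht, rfl⟩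
    obtain ⟨s, hs, hst⟩ := this
    exact ⟨s, hs, fun i hi => congrFun hst ⟨i, hi⟩⟩
  · intro s hs
    have : (fun (i : Fin n) => s i) ∈ cls n S' := h.symm ▸ ⟨s, hs, rfl⟩
    obtain ⟨t, ht, hst⟩ := this
    exact ⟨t, ht, fun i hi => (congrFun hst ⟨i, hi⟩).symm⟩

theorem near_mem_nhds (n : ℕ) (s : C) : ∀ᶠ t in 𝓝 s, near n s t := by
  have : ∀ᶠ t in 𝓝 s, ∀ i ∈ Finset.range n, s i = t i := by
    rw [eventually_all_finset]
    intro i _
    have h1 : Tendsto (fun t : C => t i) (𝓝 s) (𝓝 (s i)) := (continuous_apply i).tendsto s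
    have h2 : ∀ᶠ b in 𝓝 (s i), s i = b := by
      rw [nhds_discrete]
      simp
    exact h1.eventually h2
  exact this.mono (fun t ht i hi => ht i (Finset.mem_range.2 hi))

theorem exists_enum (S : Finset C) (N : ℕ) (h : S.card ≤ N) :
    ∃ s : Fin N → C, ∀ u ∈ S, ∃ i, s i = u := by
  classical
  let e := S.equivFin
  refine ⟨fun i => if h : i.1 < S.card then (e.symm ⟨i.1, h⟩).1 else default, ?_⟩
  intro u hu
  have hlt : (e ⟨u, hu⟩).1 < S.card := (e ⟨u, hu⟩).2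
  refine ⟨⟨(e ⟨u, hu⟩).1, lt_of_lt_of_le hlt h⟩, ?_⟩
  simp [hlt]

section

variable {L : Type*} [LinearOrder L] (ι : L → C)

theorem fiber_null {f : Filter (XX ι)} [CountableInterFilter f]
    (h : ∀ x, ∃ n, ∀ᶠ y in f, y ∉ U ι n x) (a : L → Bool) : ∀ᶠ y in f, y.1 ≠ a := by
  have key : ∀ᶠ y in f, ∀ p : (Σ n : ℕ, Set (Fin n → Bool)),
      (∀ᶠ y' in f, ¬ (y'.1 = a ∧ cls p.1 y'.2 = p.2)) → ¬ (y.1 = a ∧ cls p.1 y.2 = p.2) := by
    rw [eventually_countable_forall]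
    intro p
    by_cases hp : ∀ᶠ y' in f, ¬ (y'.1 = a ∧ cls p.1 y'.2 = p.2)
    · exact hp.mono (fun y hy _ => hy)
    · exact Eventually.of_forall (fun y hh => absurd hh hp)
  filter_upwards [key] with y hy h1
  obtain ⟨n, hn⟩ := h ((a, y.2) : XX ι)
  refine hy ⟨n, cls n y.2⟩ ?_ ⟨h1, rfl⟩
  exact hn.mono (fun y' hy' hc => hy' (Or.inl ⟨hc.1, vn_of_cls hc.2⟩))

theorem step2 {f : Filter (XX ι)} (h : ∀ x, ∃ n, ∀ᶠ y in f, y ∉ U ι n x) (N : ℕ)
    (a : L → Bool) :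
    ∃ R : Finset C, ∀ᶠ y in f, y.2.card ≤ N → ∀ η, FD a y.1 η → ι η ∈ R := by
  classical
  choose n hn using h
  let S : C × (Fin N → C) → Finset C := fun p => insert p.1 (Finset.univ.image p.2)
  let x : C × (Fin N → C) → XX ι := fun p => (a, S p)
  have hm : ∀ p : C × (Fin N → C), ∃ m, ∀ t ∈ S p, near m p.1 t → p.1 = t := by
    intro p
    obtain ⟨m, hm⟩ := exists_sep {p.1} (S p)
    exact ⟨m, fun t ht hh => hm _ (Finset.mem_singleton_self _) t ht hh⟩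
  choose m hm using hm
  let k : C × (Fin N → C) → ℕ := fun p => max (n (x p)) (m p)
  let W : C × (Fin N → C) → Set (C × (Fin N → C)) := fun p =>
    {q | near (k p) p.1 q.1 ∧ ∀ i, near (k p) (p.2 i) (q.2 i)}
  have hW : ∀ p, W p ∈ 𝓝 p := by
    intro p
    have h1 : ∀ᶠ q in 𝓝 p, near (k p) p.1 q.1 :=
      (continuous_fst.tendsto p).eventually (near_mem_nhds (k p) p.1)
    have h2 : ∀ᶠ q in 𝓝 p, ∀ i, near (k p) (p.2 i) (q.2 i) := by
      rw [eventually_all]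
      intro i
      have hc : Continuous (fun q : C × (Fin N → C) => q.2 i) :=
        (continuous_apply i).comp continuous_snd
      exact (hc.tendsto p).eventually (near_mem_nhds (k p) (p.2 i))
    exact h1.and h2
  obtain ⟨t, -, ht⟩ := isCompact_univ.elim_nhds_subcover W (fun p _ => hW p)
  refine ⟨t.image Prod.fst, ?_⟩
  have hev : ∀ᶠ y in f, ∀ p ∈ t, y ∉ U ι (k p) (x p) := by
    rw [eventually_all_finset]
    intro p _
    exact (hn (x p)).mono (fun y hy hc => hy (U_anti ι (le_max_left _ _) _ hc))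
  filter_upwards [hev] with y hy hcard η hη
  obtain ⟨s', hs'⟩ := exists_enum y.2 N hcard
  have hq : ((ι η, s') : C × (Fin N → C)) ∈ ⋃ p ∈ t, W p := ht (mem_univ _)
  simp only [mem_iUnion] at hq
  obtain ⟨p, hp, hq1, hq2⟩ := hq
  by_contra hR
  have hne : p.1 ≠ ι η := fun hh => hR (Finset.mem_image.2 ⟨p, hp, hh⟩)
  apply hy p hp
  refine Or.inr ⟨η, hη, ⟨p.1, Finset.mem_insert_self _ _, hq1⟩, ?_, ?_⟩
  · intro hmem
    exact hne (hm p _ hmem (near_mono (le_max_right _ _) hq1))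
  · intro u hu
    obtain ⟨i, rfl⟩ := hs' u hu
    exact ⟨p.2 i, Finset.mem_insert_of_mem (Finset.mem_image_of_mem _ (Finset.mem_univ i)), hq2 i⟩

end

section

variable {L : Type*} [LinearOrder L] [WellFoundedLT L]

theorem next_split {G : Filter (L → Bool)} (h1 : ∀ a, ∀ᶠ b in G, b ≠ a)
    (h2 : ∀ a, ∃ R : Set L, R.Finite ∧ ∀ᶠ b in G, ∀ η, FD a b η → η ∈ R)
    (b : L → Bool) (A : Set L) (hpos : ∃ᶠ y in G, ∀ ζ ∈ A, y ζ = b ζ) :
    ∃ (c : L → Bool) (ζ0 : L), (∀ ζ ∈ A, c ζ = b ζ) ∧ ζ0 ∉ A ∧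
      (∃ᶠ y in G, (∀ ζ < ζ0, y ζ = c ζ) ∧ y ζ0 ≠ c ζ0) ∧
      (∃ᶠ y in G, ∀ ζ ≤ ζ0, y ζ = c ζ) := by
  classical
  let K : (L → Bool) → Prop := fun y => ∀ ζ ∈ A, y ζ = b ζ
  let c : L → Bool := fun ζ => if ζ ∈ A then b ζ else decide (∃ᶠ y in G, K y ∧ y ζ = true)
  have hcA : ∀ ζ ∈ A, c ζ = b ζ := fun ζ hζ => by simp [c, hζ]
  have hdec : ∀ ζ, (∃ᶠ y in G, K y ∧ y ζ ≠ c ζ) → ζ ∉ A ∧ ∃ᶠ y in G, K y ∧ y ζ = c ζ := by
    intro ζ hζ
    have hA : ζ ∉ A := by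
      intro hA
      obtain ⟨y, hy, hy'⟩ := hζ.exists
      exact hy' ((hy ζ hA).trans (hcA ζ hA).symm)
    refine ⟨hA, ?_⟩
    by_cases hf : ∃ᶠ y in G, K y ∧ y ζ = true
    · have hc : c ζ = true := by
        simp only [c, if_neg hA]
        exact decide_eq_true hf
      rw [hc]
      exact hf
    · have hc : c ζ = false := by
        simp only [c, if_neg hA]
        exact decide_eq_false hf
      exfalso
      apply hf
      refine hζ.mono ?_
      rintro y ⟨hy, hy'⟩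
      rw [hc] at hy'
      exact ⟨hy, by simpa using hy'⟩
  obtain ⟨R, hRfin, hR⟩ := h2 c
  have hne : {ζ | ∃ᶠ y in G, K y ∧ y ζ ≠ c ζ}.Nonempty := by
    by_contra hcon
    have hcon' : ∀ ζ, ∀ᶠ y in G, ¬ (K y ∧ y ζ ≠ c ζ) := by
      intro ζ
      by_contra hh
      exact hcon ⟨ζ, hh⟩
    have e1 : ∀ᶠ y in G, ∀ ζ ∈ R, ¬ (K y ∧ y ζ ≠ c ζ) :=
      (eventually_all_finite hRfin).2 (fun ζ _ => hcon' ζ)
    obtain ⟨y, hKy, hyc, hyR, hye⟩ := (hpos.and_eventually ((h1 c).and (hR.and e1))).exists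
    obtain ⟨η, hη⟩ := exists_FD (Ne.symm hyc)
    exact hye η (hyR η hη) ⟨hKy, hη.2.symm⟩
  let ζ0 : L := (wellFounded_lt (α := L)).min _ hne
  have h0 : ∃ᶠ y in G, K y ∧ y ζ0 ≠ c ζ0 := (wellFounded_lt (α := L)).min_mem _ hne
  have hmin : ∀ ζ < ζ0, ∀ᶠ y in G, ¬ (K y ∧ y ζ ≠ c ζ) := by
    intro ζ hζ
    by_contra hh
    exact (wellFounded_lt (α := L)).not_lt_min _ (x := ζ) hh hζ
  have hev : ∀ᶠ y in G, K y → ∀ ζ < ζ0, y ζ = c ζ := by
    have e1 : ∀ᶠ y in G, ∀ ζ ∈ R, ζ < ζ0 → ¬ (K y ∧ y ζ ≠ c ζ) := by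
      refine (eventually_all_finite hRfin).2 (fun ζ _ => ?_)
      by_cases hζ : ζ < ζ0
      · exact (hmin ζ hζ).mono (fun y hy _ => hy)
      · exact Eventually.of_forall (fun y hh => absurd hh hζ)
    filter_upwards [hR, e1] with y hyR hye hKy ζ hζ
    by_contra hne'
    have hyc : c ≠ y := fun hh => hne' (by rw [hh])
    obtain ⟨η, hη⟩ := exists_FD hyc
    have hle : η ≤ ζ := by
      by_contra hlt
      exact hne' (hη.1 ζ (not_le.1 hlt)).symm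
    exact hye η (hyR η hη) (lt_of_le_of_lt hle hζ) ⟨hKy, hη.2.symm⟩
  refine ⟨c, ζ0, hcA, (hdec ζ0 h0).1, ?_, ?_⟩
  · refine (h0.and_eventually hev).mono ?_
    rintro y ⟨⟨hK, hy⟩, he⟩
    exact ⟨he hK, hy⟩
  · refine ((hdec ζ0 h0).2.and_eventually hev).mono ?_
    rintro y ⟨⟨hK, hy⟩, he⟩ ζ hζ
    rcases lt_or_eq_of_le hζ with h | h
    · exact he hK ζ h
    · rw [h]; exact hy

theorem step3 {G : Filter (L → Bool)} [NeBot G] (h1 : ∀ a, ∀ᶠ b in G, b ≠ a)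
    (h2 : ∀ a, ∃ R : Set L, R.Finite ∧ ∀ᶠ b in G, ∀ η, FD a b η → η ∈ R) : False := by
  classical
  let P : (L → Bool) × L → Prop := fun p =>
    (∃ᶠ y in G, (∀ ζ < p.2, y ζ = p.1 ζ) ∧ y p.2 ≠ p.1 p.2) ∧
    (∃ᶠ y in G, ∀ ζ ≤ p.2, y ζ = p.1 ζ)
  have hnext : ∀ s : {p // P p}, ∃ s' : {p // P p},
      (∀ ζ ≤ s.1.2, s'.1.1 ζ = s.1.1 ζ) ∧ s.1.2 < s'.1.2 := by
    rintro ⟨⟨b, ζ⟩, hs, hp⟩
    obtain ⟨c, ζ0, g1, g2, g3, g4⟩ := next_split h1 h2 b (Iic ζ) hp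
    exact ⟨⟨(c, ζ0), g3, g4⟩, g1, not_le.1 g2⟩
  have hstart : Nonempty {p // P p} := by
    obtain ⟨c, ζ0, -, -, g3, g4⟩ := next_split h1 h2 (fun _ => false) ∅
      (Frequently.of_forall (by simp))
    exact ⟨⟨(c, ζ0), g3, g4⟩⟩
  choose nx hnx using hnext
  obtain ⟨s0⟩ := hstart
  let sq : ℕ → {p // P p} := fun k => Nat.rec s0 (fun _ s => nx s) k
  have hsq : ∀ k, sq (k + 1) = nx (sq k) := fun k => rfl
  have hmono : StrictMono (fun k => (sq k).1.2) := by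
    refine strictMono_nat_of_lt_succ (fun k => ?_)
    rw [hsq k]
    exact (hnx (sq k)).2
  have hagree : ∀ k j, k ≤ j → ∀ ζ ≤ (sq k).1.2, (sq j).1.1 ζ = (sq k).1.1 ζ := by
    intro k j hkj
    induction j, hkj using Nat.le_induction with
    | base => intro ζ _; rfl
    | succ j hkj ih =>
      intro ζ hζ
      rw [hsq j, (hnx (sq j)).1 ζ (hζ.trans (hmono.monotone hkj))]
      exact ih ζ hζ
  let a : L → Bool := fun ζ =>
    if h : ∃ k, ζ ≤ (sq k).1.2 then (sq (Nat.find h)).1.1 ζ else false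
  have ha : ∀ k ζ, ζ ≤ (sq k).1.2 → a ζ = (sq k).1.1 ζ := by
    intro k ζ hζ
    have h : ∃ k, ζ ≤ (sq k).1.2 := ⟨k, hζ⟩
    have e : a ζ = (sq (Nat.find h)).1.1 ζ := by simp only [a, dif_pos h]
    rw [e]
    exact (hagree (Nat.find h) k (Nat.find_min' h hζ) ζ (Nat.find_spec h)).symm
  obtain ⟨R, hRfin, hR⟩ := h2 a
  have hmem : ∀ k, (sq k).1.2 ∈ R := by
    intro k
    obtain ⟨y, ⟨hy1, hy2⟩, hyR⟩ := ((sq k).2.1.and_eventually hR).exists
    apply hyR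
    refine ⟨fun ζ hζ => ?_, ?_⟩
    · rw [ha k ζ hζ.le]
      exact (hy1 ζ hζ).symm
    · rw [ha k _ le_rfl]
      exact hy2.symm
  exact Set.infinite_of_injective_forall_mem hmono.injective hmem hRfin

theorem lindelof (ι : L → C) (hι : Function.Injective ι) : LindelofSpace (XX ι) := by
  refine ⟨?_⟩
  intro f hf1 hf2 _
  by_contra hcon
  have h : ∀ x, ∃ n, ∀ᶠ y in f, y ∉ U ι n x := by
    intro x
    by_contra hx
    apply hcon
    refine ⟨x, mem_univ x, ?_⟩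
    rw [clusterPt_iff_frequently]
    intro s hs
    obtain ⟨n, -, hn⟩ := (nhds_basis ι x).mem_iff.1 hs
    have : ∃ᶠ y in f, y ∈ U ι n x := by
      intro hh
      exact hx ⟨n, hh⟩
    exact this.mono hn
  have hN : ∃ N : ℕ, ∃ᶠ y in f, y.2.card ≤ N := by
    by_contra hc
    have hc' : ∀ N : ℕ, ∀ᶠ y in f, ¬ (y.2.card ≤ N) := by
      intro N
      by_contra hh
      exact hc ⟨N, hh⟩
    obtain ⟨y, hy⟩ := (eventually_countable_forall.2 hc').exists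
    exact hy _ le_rfl
  obtain ⟨N, hN⟩ := hN
  let g : Filter (XX ι) := f ⊓ 𝓟 {y | y.2.card ≤ N}
  have hg : NeBot g := frequently_mem_iff_neBot.1 hN
  let pr : XX ι → (L → Bool) := fun y => y.1
  have hG : NeBot (map pr g) := hg.map _
  refine step3 (G := map pr g) ?_ ?_
  · intro a
    rw [eventually_map]
    exact (fiber_null ι h a).filter_mono inf_le_left
  · intro a
    obtain ⟨R, hR⟩ := step2 ι h N a
    refine ⟨ι ⁻¹' (R : Set C), R.finite_toSet.preimage hι.injOn, ?_⟩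
    rw [eventually_map]
    have h3 : ∀ᶠ y in g, y.2.card ≤ N := mem_inf_of_right (mem_principal_self _)
    filter_upwards [hR.filter_mono inf_le_left, h3] with y hy hy3 η hη
    exact hy hy3 η hη

end

end Pool.Agent.H380Lind
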