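import Mathlib

set_option autoImplicit false

namespace Pool.Agent.H380Lind

open Set Filter Topology

/-- Cantor space. -/
abbrev C := ℕ → Bool

/-- `s` and `t` agree on the first `n` coordinates. -/
def near (n : ℕ) (s t : C) : Prop := ∀ i < n, s i = t i

theorem near_refl (n : ℕ) (s : C) : near n s s := fun _ _ => rfl

theorem near_symm {n : ℕ} {s t : C} (h : near n s t) : near n t s := fun i hi => (h i hi).symm

theorem near_trans {n : ℕ} {s t u : C} (h : near n s t) (h' : near n t u) : near n s u :=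
  fun i hi => (h i hi).trans (h' i hi)

theorem near_mono {m n : ℕ} (hmn : m ≤ n) {s t : C} (h : near n s t) : near m s t :=
  fun i hi => h i (lt_of_lt_of_le hi hmn)

theorem exists_sep_pt (s t : C) : ∃ m, near m s t → s = t := by
  by_cases h : s = t
  · exact ⟨0, fun _ => h⟩
  · obtain ⟨i, hi⟩ := Function.ne_iff.1 h
    exact ⟨i + 1, fun hh => absurd (hh i (Nat.lt_succ_self i)) hi⟩

theorem exists_sep (S T : Finset C) : ∃ m, ∀ s ∈ S, ∀ t ∈ T, near m s t → s = t := by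
  choose f hf using exists_sep_pt
  refine ⟨(S ×ˢ T).sup (fun p => f p.1 p.2), fun s hs t ht h => hf s t (near_mono ?_ h)⟩
  exact Finset.le_sup (f := fun p : C × C => f p.1 p.2) (Finset.mk_mem_product hs ht)

/-- Vietoris closeness of finite sets. -/
def vn (n : ℕ) (S S' : Finset C) : Prop :=
  (∀ t ∈ S', ∃ s ∈ S, near n s t) ∧ (∀ s ∈ S, ∃ t ∈ S', near n s t)

section

variable {L : Type*} [LinearOrder L]

/-- `a` and `b` differ for the first time at `η`. -/
def FD (a b : L → Bool) (η : L) : Prop := (∀ ζ < η, a ζ = b ζ) ∧ a η ≠ b η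

theorem FD.unique {a b : L → Bool} {η η' : L} (h : FD a b η) (h' : FD a b η') : η = η' := by
  rcases lt_trichotomy η η' with h1 | h1 | h1
  · exact absurd (h'.1 η h1) h.2
  · exact h1
  · exact absurd (h.1 η' h1) h'.2

theorem exists_FD [WellFoundedLT L] {a b : L → Bool} (h : a ≠ b) : ∃ η, FD a b η := by
  have hne : {η | a η ≠ b η}.Nonempty := Function.ne_iff.1 h
  refine ⟨(wellFounded_lt (α := L)).min _ hne, ?_, (wellFounded_lt (α := L)).min_mem _ hne⟩
  intro ζ hζ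
  by_contra hc
  exact (wellFounded_lt (α := L)).not_lt_min _ (x := ζ) hc hζ

/-- The underlying set of the space: `2^L × Fin(2^ω)`. -/
def XX (_ι : L → C) : Type _ := (L → Bool) × Finset C

variable (ι : L → C)

/-- The basic neighbourhoods. -/
def U (n : ℕ) (x : XX ι) : Set (XX ι) :=
  {y | (y.1 = x.1 ∧ vn n x.2 y.2) ∨
    ∃ η, FD x.1 y.1 η ∧ (∃ s ∈ x.2, near n s (ι η)) ∧ ι η ∉ x.2 ∧
      ∀ t ∈ y.2, ∃ s ∈ x.2, near n s t}

theorem mem_U_self (n : ℕ) (x : XX ι) : x ∈ U ι n x :=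
  Or.inl ⟨rfl, fun t ht => ⟨t, ht, near_refl n t⟩, fun s hs => ⟨s, hs, near_refl n s⟩⟩

theorem U_anti {m n : ℕ} (hmn : m ≤ n) (x : XX ι) : U ι n x ⊆ U ι m x := by
  rintro y (⟨h1, h2, h3⟩ | ⟨η, h1, ⟨s, hs, h2⟩, h3, h4⟩)
  · refine Or.inl ⟨h1, fun t ht => ?_, fun s hs => ?_⟩
    · obtain ⟨s, hs, h⟩ := h2 t ht
      exact ⟨s, hs, near_mono hmn h⟩
    · obtain ⟨t, ht, h⟩ := h3 s hs
      exact ⟨t, ht, near_mono hmn h⟩
  · refine Or.inr ⟨η, h1, ⟨s, hs, near_mono hmn h2⟩, h3, fun t ht => ?_⟩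
    obtain ⟨s, hs, h⟩ := h4 t ht
    exact ⟨s, hs, near_mono hmn h⟩

theorem U_open {n : ℕ} {x y : XX ι} (hy : y ∈ U ι n x) : ∃ m, U ι m y ⊆ U ι n x := by
  obtain ⟨m0, hm0⟩ := exists_sep y.2 x.2
  rcases hy with ⟨h1, h2, h3⟩ | ⟨δ, h1, ⟨s0, hs0, h2⟩, h3, h4⟩
  · refine ⟨max n m0, ?_⟩
    rintro z (⟨g1, g2, g3⟩ | ⟨η, g1, ⟨s', hs', g2⟩, g3, g4⟩)
    · refine Or.inl ⟨g1.trans h1, fun t ht => ?_, fun s hs => ?_⟩
      · obtain ⟨s', hs', h⟩ := g2 t ht
        obtain ⟨s, hs, h'⟩ := h2 s' hs'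
        exact ⟨s, hs, near_trans h' (near_mono (le_max_left _ _) h)⟩
      · obtain ⟨s', hs', h⟩ := h3 s hs
        obtain ⟨t, ht, h'⟩ := g3 s' hs'
        exact ⟨t, ht, near_trans h (near_mono (le_max_left _ _) h')⟩
    · obtain ⟨s, hs, hss⟩ := h2 s' hs'
      refine Or.inr ⟨η, h1 ▸ g1, ⟨s, hs, near_trans hss (near_mono (le_max_left _ _) g2)⟩, ?_, ?_⟩
      · intro hη
        have := hm0 s' hs' _ hη (near_mono (le_max_right _ _) g2)
        exact g3 (this ▸ hs')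
      · intro t ht
        obtain ⟨s', hs', h⟩ := g4 t ht
        obtain ⟨s, hs, h'⟩ := h2 s' hs'
        exact ⟨s, hs, near_trans h' (near_mono (le_max_left _ _) h)⟩
  · obtain ⟨m1, hm1⟩ := exists_sep y.2 {ι δ}
    refine ⟨max n (max m0 m1), ?_⟩
    have l0 : n ≤ max n (max m0 m1) := le_max_left _ _
    have l1 : m0 ≤ max n (max m0 m1) := (le_max_left _ _).trans (le_max_right _ _)
    have l2 : m1 ≤ max n (max m0 m1) := (le_max_right _ _).trans (le_max_right _ _)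
    rintro z (⟨g1, g2, g3⟩ | ⟨η, g1, ⟨s', hs', g2⟩, g3, g4⟩)
    · refine Or.inr ⟨δ, g1 ▸ h1, ⟨s0, hs0, h2⟩, h3, fun t ht => ?_⟩
      obtain ⟨s', hs', h⟩ := g2 t ht
      obtain ⟨s, hs, h'⟩ := h4 s' hs'
      exact ⟨s, hs, near_trans h' (near_mono l0 h)⟩
    · have key : ∀ t ∈ z.2, ∃ s ∈ x.2, near n s t := by
        intro t ht
        obtain ⟨s', hs', h⟩ := g4 t ht
        obtain ⟨s, hs, h'⟩ := h4 s' hs'
        exact ⟨s, hs, near_trans h' (near_mono l0 h)⟩
      rcases lt_trichotomy η δ with h5 | h5 | h5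
      · obtain ⟨s, hs, hss⟩ := h4 s' hs'
        refine Or.inr ⟨η, ⟨fun ζ hζ => (h1.1 ζ (hζ.trans h5)).trans (g1.1 ζ hζ), ?_⟩,
          ⟨s, hs, near_trans hss (near_mono l0 g2)⟩, ?_, key⟩
        · rw [h1.1 η h5]
          exact g1.2
        · intro hη
          have := hm0 s' hs' _ hη (near_mono l1 g2)
          exact g3 (this ▸ hs')
      · exfalso
        subst h5
        have := hm1 s' hs' _ (Finset.mem_singleton_self _) (near_mono l2 g2)
        exact g3 (this ▸ hs')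
      · refine Or.inr ⟨δ, ⟨fun ζ hζ => (h1.1 ζ hζ).trans (g1.1 ζ (hζ.trans h5)), ?_⟩,
          ⟨s0, hs0, h2⟩, h3, key⟩
        rw [← g1.1 δ h5]
        exact h1.2

instance instTop : TopologicalSpace (XX ι) where
  IsOpen O := ∀ x ∈ O, ∃ n, U ι n x ⊆ O
  isOpen_univ := fun x _ => ⟨0, subset_univ _⟩
  isOpen_inter := by
    rintro s t hs ht x ⟨hxs, hxt⟩
    obtain ⟨n, hn⟩ := hs x hxs
    obtain ⟨m, hm⟩ := ht x hxt
    exact ⟨max n m, subset_inter ((U_anti ι (le_max_left _ _) x).trans hn)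
      ((U_anti ι (le_max_right _ _) x).trans hm)⟩
  isOpen_sUnion := by
    rintro s hs x ⟨t, hts, hxt⟩
    obtain ⟨n, hn⟩ := hs t hts x hxt
    exact ⟨n, hn.trans (subset_sUnion_of_mem hts)⟩

theorem isOpen_iff {O : Set (XX ι)} : IsOpen O ↔ ∀ x ∈ O, ∃ n, U ι n x ⊆ O := Iff.rfl

theorem isOpen_U (n : ℕ) (x : XX ι) : IsOpen (U ι n x) := fun _ hy => U_open ι hy

theorem nhds_basis (x : XX ι) : (𝓝 x).HasBasis (fun _ : ℕ => True) (fun n => U ι n x) := by
  refine ⟨fun s => ?_⟩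
  rw [mem_nhds_iff]
  constructor
  · rintro ⟨t, hts, ht, hx⟩
    obtain ⟨n, hn⟩ := ht x hx
    exact ⟨n, trivial, hn.trans hts⟩
  · rintro ⟨n, -, hn⟩
    exact ⟨U ι n x, hn, isOpen_U ι n x, mem_U_self ι n x⟩

instance instFC : FirstCountableTopology (XX ι) where
  nhds_generated_countable x := (nhds_basis ι x).isCountablyGenerated

instance instT1 [WellFoundedLT L] : T1Space (XX ι) where
  t1 x := by
    rw [← isOpen_compl_iff, isOpen_iff]
    intro y hy
    have hyx : y ≠ x := hy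
    by_cases h : y.1 = x.1
    · have h2 : y.2 ≠ x.2 := fun h2 => hyx (Prod.ext h h2)
      obtain ⟨n, hn⟩ := exists_sep y.2 x.2
      refine ⟨n, ?_⟩
      rintro z hz (rfl : z = x)
      rcases hz with ⟨-, g1, g2⟩ | ⟨η, g, -⟩
      · apply h2
        ext s
        constructor
        · intro hs
          obtain ⟨t, ht, hst⟩ := g2 s hs
          rw [hn s hs t ht hst]
          exact ht
        · intro ht
          obtain ⟨s', hs', hst⟩ := g1 s ht
          rw [← hn s' hs' s ht hst]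
          exact hs'
      · exact g.2 (by rw [h])
    · obtain ⟨δ, hδ⟩ := exists_FD h
      obtain ⟨n, hn⟩ := exists_sep y.2 {ι δ}
      refine ⟨n, ?_⟩
      rintro z hz (rfl : z = x)
      rcases hz with ⟨g1, -⟩ | ⟨η, g1, ⟨s, hs, g2⟩, g3, -⟩
      · exact h g1.symm
      · obtain rfl : η = δ := g1.unique hδ
        have := hn s hs _ (Finset.mem_singleton_self _) g2
        exact g3 (this ▸ hs)

end

end Pool.Agent.H380Lind
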